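import Pool.Agent.Run7.h615.ES.AbType

/-!
# Abelian varieties attached to Hilbert newforms, and abelian type

Let `f` be a Hilbert newform of parallel weight 2 over the totally real field `F`, without complex
multiplication, `ρ_f` its `ℓ`-adic representation. For a number field `K` call a representation of
`Gal(ℚ̄/K)` of abelian type if it occurs in a tensor construction `V_ℓ(B)^(⊗ a) ⊗ (V_ℓ(B)^∨)^(⊗ b)`, `B` an
abelian variety over `K`; e.g. everything which occurs in the cohomology of products of curves, abelian
varieties, K3 surfaces, or of varieties dominated by these.

* (1) There is a simple abelian variety `A_f` with `L(A_f, s) = Λ_f(s)` if and only if there are a number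
  field `K` containing `F`, an integer `n ≥ 1` and a representation `X ≠ 0` of `Gal(ℚ̄/K)` such that
  `Sym^n(ρ_f) ⊗ X` is of abelian type.
* (2) Let `σ_1, …, σ_m` be in `Gal(ℚ̄/ℚ)`. Then `A_f` exists if and only if over some number field `ρ_f ⊗ ρ_f^σ_1 ⊗ ⋯ ⊗ ρ_f^σ_m` is of abelian type. If `1, σ_1, …, σ_m` represent
  the embeddings of `F`, this is the part which belongs to `f` of the cohomology in the middle degree of
  the Hilbert modular variety. For a real quadratic field `F` it is the part which belongs to `f` of `H²`
  of the Hilbert modular surface.

So the existence of `A_f`, which cannot be attacked with Shimura curves for `F` of even degree and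
level `(1)`, is a property of the known representation in the cohomology of the Hilbert modular variety;
it is for instance true for `f` if the part of `f` of the Hilbert modular surface can be found in a K3
surface or in a product of curves.

Proof. `End(Sym^n(ρ_f) ⊗ X)` contains the adjoint representation `ad(ρ_f)`, so this is of abelian type.
Let `S` be the factor `SL₂` of the monodromy group of `V_ℓ(B) ⊕ ρ_f` which acts nontrivially on `ρ_f`. The
irreducible constituents of `V_ℓ(B)` on which `S` acts nontrivially are `Sym^k(ρ_f) ⊗ τ`, `k ≥ 1`; the
Hodge-Tate weights give `k = 1`, and those of `τ` are zero. It has to be shown that `τ` is trivial on an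
open subgroup. (For arbitrary `τ` this is a case of the conjecture of Fontaine and Mazur.) Let `v` be a
place of `K`, in a set of density one, with residue characteristic `p`, and `y` an eigenvalue of the
Frobenius at `v` on `τ`; it has absolute value `1`, and is a unit outside `p`. By the independence of `ℓ` of
the ranks of the monodromy groups `ad(ρ_f)` is of abelian type for all primes, also for `p`. The coroot of
`S` defines a reflection of the character group of the Frobenius torus which preserves the weights of
`V(B)`; such a reflection is unique, so the coroots for `ℓ` and `p` agree, hence `y` is also an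
eigenvalue of the crystalline Frobenius on one of the `τ` for `p`. These have Hodge-Tate weights zero, so
`y` is a unit at `p`. By Kronecker `y` is a root of unity, and by Chebotarev `τ` is trivial on an open
subgroup. So `ρ_f` occurs in `B` over some number field; restriction of scalars gives the abelian variety
over `F`.

The data and known facts are in `Run7.h615.ES.Basic`, `Run7.h615.ES.TensorKnown`,
`Run7.h615.ES.Pair.Known`.
-/

set_option autoImplicit false

namespace Pool.Agent.Results.MP_6cbef8_nt.AbelianType

open Run7.h615.ES

/-- (1) -/
def SymmetricPowers {Γ E : Type} [Group Γ] [Field E] (O : Opens Γ) (D : Newforms Γ E)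
    (T : TensorData D) : Prop :=
  ∀ f, ¬ D.CM f → (D.HasAV f ↔ ∃ K ∈ O.Op, K ≤ D.fld f ∧ ∃ (B : D.AV K) (n : ℕ) (X : T.Rp K),
    1 ≤ n ∧ ¬ T.Zero X ∧ AbT T B (T.tens (T.sym n (T.two K (D.rho f))) X))

/-- (2) -/
def Conjugates {Γ E : Type} [Group Γ] [Field E] (O : Opens Γ) (D : Newforms Γ E)
    (T : TensorData D) : Prop :=
  ∀ f, ¬ D.CM f → ∀ l : List Γ, (D.HasAV f ↔ ∃ K ∈ O.Op, K ≤ D.fld f ∧
    (∀ σ ∈ l, K ≤ cj σ (D.fld f)) ∧ ∃ B : D.AV K,
      AbT T B (T.tens (T.two K (D.rho f)) (T.conjProd K f l)))

/-- `A_f` exists (`HasAV f`; in this file `D.Assoc f A` means that `A` is a simple abelian variety with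
`L(A, s) = Λ_f(s)`) if and only if its representation, or the tensor
product of this and any representation, or the tensor product of its conjugates, is of abelian type
over some number field. -/
theorem result : ∀ (Γ E : Type) [Group Γ] [Field E] (O : Opens Γ) (D : Newforms Γ E)
    (T : TensorData D), Basic O D → TensorKnown O T →
      SymmetricPowers O D T ∧ Conjugates O D T := by
  intro Γ E _ _ O D T h hT
  exact ⟨fun f hf => hasAV_iff_abelianType h hT f hf, fun f hf l => hasAV_iff_conjProd h hT f hf l⟩

end Pool.Agent.Results.MP_6cbef8_nt.AbelianType
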