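import Pool.Agent.Run7.h43.ES.Fin

/-!
# MP_6cbef8_nt: descent of `A_f`, and the reduction of Q1 to newforms of level one

Let `f` be a Hilbert newform of parallel weight two with trivial central character over a totally
real field `F` (a field with a real place is enough in 1 and 2), with the Galois representations
`ρ_{f^τ}` over an algebraic closure `K` of `ℚ_ℓ`, for one prime `ℓ`. We say that `A_f` exists if some
simple abelian variety `A` over `F` satisfies `L(A, s) = Λ_f(s)` (`HasAV`; the Euler factors are
compared at almost all places, in the form of the traces of the powers of Frobenius).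

1. **Potential occurrence.** `A_f` exists **if and only if** `ρ_f` (or a conjugate) occurs in the
   Tate module `V_ℓ(B) ⊗ K` of **some** abelian variety `B` over **some** finite extension of `F`, as
   a representation of the Galois group of this extension (no condition on `B`, on its endomorphisms or
   on the multiplicity; the extension need not be totally real, solvable or Galois).
2. **Invariance.** Let `f₁`, `f₂` be newforms over two fields `F₁`, `F₂` such that `ρ_{f₁}` and `ρ_{f₂}`
   (or conjugates) become isomorphic over a finite extension of both fields. Then `A_{f₁}` exists if and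
   only if `A_{f₂}` exists. So the existence of `A_f` does not change if `f` is replaced by a twist by a
   quadratic character, by its base change to any totally real extension, by a newform of which it is a
   base change, or by a conjugate. In particular `A_f` exists if `f` is related in this way to a newform
   in the range of the theorem of Zhang, for example if some local component of `f` is a twist of the
   Steinberg representation by a ramified quadratic character (the level has an even exponent there).
3. **Level one suffices.** With the theorem of Zhang and with base change (Langlands), **Q1 for all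
   newforms follows from Q1 for the newforms of level one** (over all totally real fields of even
   degree).

The proof. Let `W` be the space of `ρ_f`, contained in `V(B)` over an extension `E` of `F`. By
Frobenius reciprocity `W` maps to the Tate module of the Weil restriction of `B`, so it is contained
in `V(A)` for a simple abelian variety `A` over `F`. Let `D` be its endomorphism algebra. By the theorem
of Faltings there is a projector `x ∈ K ⊗ D` of `V(A)` onto `W`. The complex conjugation acts on
`M = H_1(A(ℂ), ℚ)` and commutes with `D`; let `M⁺` be its invariants, of rank `r` over `D`. As the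
complex conjugation has trace zero on `W`, the trace of `x` on `K ⊗ M⁺` is one; it is also `r` times
the dimension of the right ideal `x (K ⊗ D)`. So `r = 1`, the ideal has dimension one, and the action of
`D` on it is an embedding of `D` in `K`: the division algebra `D` is a field, and `dim A = [D : ℚ]`. The
trace form of `D` gives for every Frobenius element `g` an element of `D` with the image `tr ρ_f(g)`, so
the field `M_f` embeds in `D`. If it were not equal to `D`, an element `d ≠ 0` of `D` would be
orthogonal to it, and then `tr(g d) = 0` on `V(A)` for all `g` by the theorem of Chebotarev; this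
contradicts the double commutant theorem. So `D = M_f`, and the traces of the powers of Frobenius on
`V(A)` are the traces of the corresponding elements of `M_f`.

The structures `NumberFields`, `AbelianVarieties`, `Newforms` in `Pool/Agent/Run7/h43/ES/Defs.lean`
collect the known properties which are used (theorems of Chebotarev and Faltings, rationality of the
traces of endomorphisms of the reduction, Weil restriction, the Galois representations of newforms).
-/

set_option autoImplicit false

open Run7.h43.ES

namespace Pool.Agent.Results.MP_6cbef8_nt.DescentAndLevelOne

/-- **`A_f` exists if and only if the Galois representation of `f` occurs potentially in an abelian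
variety, its existence depends only on the restriction of the Galois representation to finite
extensions, and newforms of level one suffice for Q1.** -/
theorem result {𝔾 : Type} [Group 𝔾] [TopologicalSpace 𝔾] {F : NumberFields 𝔾} {K : Type}
    [Field K] [CharZero K] [TopologicalSpace K] [IsTopologicalRing K] [T2Space K] [IsAlgClosed K]
    (𝒜 : AbelianVarieties F K) (𝒩 : Newforms F K) :
    (∀ H : Subgroup 𝔾, IsField H → F.conj ∈ H → ∀ f : 𝒩.Form H,
      HasAV 𝒜 𝒩 f ↔ ∃ (H' : Subgroup 𝔾) (hle : H' ≤ H) (_ : IsField H') (B : 𝒜.Simple H'),
        Occurs 𝒜 𝒩 hle f B) ∧
    (∀ H₁ H₂ : Subgroup 𝔾, IsField H₁ → IsField H₂ → F.conj ∈ H₁ → F.conj ∈ H₂ →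
      ∀ (f₁ : 𝒩.Form H₁) (f₂ : 𝒩.Form H₂),
      (∃ (H' : Subgroup 𝔾) (h₁ : H' ≤ H₁) (h₂ : H' ≤ H₂) (_ : IsField H'),
        Isomorphic 𝒩 h₁ h₂ f₁ f₂) → (HasAV 𝒜 𝒩 f₁ ↔ HasAV 𝒜 𝒩 f₂)) ∧
    (ZhangTheorem 𝒜 𝒩 → BaseChange 𝒩 → (LevelOneQuestion 𝒜 𝒩 ↔ Question 𝒜 𝒩)) := by
  refine ⟨fun H hH hc f => hasAV_iff hH hc f, ?_, level_one⟩
  rintro H₁ H₂ hH₁ hH₂ hc₁ hc₂ f₁ f₂ ⟨H', h₁, h₂, hH', h⟩
  exact ⟨fun hA => hasAV_of_iso h₂ h₁ hH₂ hH₁ hH' hc₂ f₂ f₁ (iso_symm h₁ h₂ f₁ f₂ h) hA,
    fun hA => hasAV_of_iso h₁ h₂ hH₁ hH₂ hH' hc₁ f₁ f₂ h hA⟩

end Pool.Agent.Results.MP_6cbef8_nt.DescentAndLevelOne
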